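import Mathlib
import Pool.Agent.U337.EM.Stm

/-!
Project EM (helper337), package X (helper7): an extension of modules over the polynomial ring.
`M` is the quotient of `A × S^d` by the elements `(-ω i j, X_j e_i - X_i e_j)`; the map `A → M` is injective by the
retraction `(a, s) ↦ a + ∑_(i,k) ∂_k ((E + 1)⁻¹ s_i) • ω i k`, `E` the Euler operator.
-/

set_option autoImplicit false

namespace Pool.Agent.U7.EM.X

open MvPolynomial
open Pool.Agent.U337.EM

section
variable {F : Type} [Field F] {d : ℕ}

/-- the Euler operator -/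
noncomputable def E : Sy F d →ₗ[F] Sy F d where
  toFun p := ∑ k, X k * pderiv k p
  map_add' p q := by simp [mul_add, Finset.sum_add_distrib]
  map_smul' c p := by simp [Finset.smul_sum]

theorem E_apply (p : Sy F d) : E p = ∑ k, X k * pderiv k p := rfl

theorem E_monomial (a : Fin d →₀ ℕ) (r : F) :
    E (monomial a r) = monomial a ((a.degree : F) * r) := by
  rw [E_apply, (isHomogeneous_monomial r rfl).sum_X_mul_pderiv, ← Nat.cast_smul_eq_nsmul F,
    smul_monomial, smul_eq_mul]

/-- the inverse of `E + c` -/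
noncomputable def nu (c : ℕ) : Sy F d →ₗ[F] Sy F d :=
  (basisMonomials (Fin d) F).constr F (fun a => monomial a (((a.degree : F) + c)⁻¹))

theorem nu_monomial (c : ℕ) (a : Fin d →₀ ℕ) (r : F) :
    nu c (monomial a r) = monomial a (((a.degree : F) + c)⁻¹ * r) := by
  have h1 : (monomial a r : Sy F d) = r • (basisMonomials (Fin d) F) a := by
    rw [coe_basisMonomials, smul_monomial, smul_eq_mul, mul_one]
  rw [h1, map_smul, nu, Module.Basis.constr_basis, smul_monomial, smul_eq_mul, mul_comm]

theorem lin_ext {V : Type} [AddCommGroup V] [Module F V] {f g : Sy F d →ₗ[F] V}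
    (h : ∀ a r, f (monomial a r) = g (monomial a r)) (p : Sy F d) : f p = g p := by
  induction p using MvPolynomial.induction_on' with
  | monomial a r => exact h a r
  | add p q hp hq => rw [map_add, map_add, hp, hq]

variable [CharZero F]

theorem ne (a : Fin d →₀ ℕ) {c : ℕ} (hc : 0 < c) : ((a.degree : F) + c) ≠ 0 := by
  exact_mod_cast (by omega : a.degree + c ≠ 0)

theorem E_nu {c : ℕ} (hc : 0 < c) (p : Sy F d) : E (nu c p) + (c : F) • nu c p = p := by
  have := lin_ext (f := E.comp (nu c) + (c : F) • nu c) (g := LinearMap.id) (F := F) (d := d)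
    (fun a r => by
      simp only [LinearMap.add_apply, LinearMap.comp_apply, LinearMap.smul_apply, LinearMap.id_apply,
        nu_monomial, E_monomial, smul_monomial, smul_eq_mul]
      rw [← map_add, ← add_mul, ← mul_assoc, mul_inv_cancel₀ (ne a hc), one_mul]) p
  exact this

theorem nu_E {c : ℕ} (hc : 0 < c) (p : Sy F d) : nu c (E p + (c : F) • p) = p := by
  have := lin_ext (f := (nu c).comp (E + (c : F) • LinearMap.id)) (g := LinearMap.id) (F := F)
    (d := d) (fun a r => by
      simp only [LinearMap.add_apply, LinearMap.comp_apply, LinearMap.smul_apply, LinearMap.id_apply,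
        E_monomial, smul_monomial, smul_eq_mul]
      rw [← map_add, ← add_mul, nu_monomial, ← mul_assoc, inv_mul_cancel₀ (ne a hc), one_mul]) p
  exact this

omit [CharZero F] in
theorem pd (k j : Fin d) (p : Sy F d) :
    pderiv k (X j * p) = X j * pderiv k p + (if j = k then p else 0) := by
  rw [Derivation.leibniz, smul_eq_mul, smul_eq_mul, pderiv_X, Pi.single_apply]
  split_ifs <;> simp

omit [CharZero F] in
theorem E_X (j : Fin d) (p : Sy F d) : E (X j * p) = X j * (E p + p) := by
  rw [E_apply, E_apply]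
  simp only [pd, mul_add, Finset.sum_add_distrib, Finset.mul_sum]
  congr 1
  · exact Finset.sum_congr rfl fun k _ => by ring
  · rw [Finset.sum_eq_single j]
    · simp
    · intro k _ hk; rw [if_neg hk.symm, mul_zero]
    · intro h; exact absurd (Finset.mem_univ j) h

theorem nu_X (j : Fin d) (p : Sy F d) : nu 1 (X j * p) = X j * nu 2 p := by
  have h1 : X j * p = E (X j * nu 2 p) + ((1 : ℕ) : F) • (X j * nu 2 p) := by
    have h2 := E_nu (F := F) (c := 2) (by norm_num) p
    rw [E_X]
    calc X j * p = X j * (E (nu 2 p) + ((2 : ℕ) : F) • nu 2 p) := by rw [h2]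
      _ = _ := by
        rw [Nat.cast_one, one_smul, Nat.cast_ofNat, two_smul]
        ring
  rw [h1, nu_E (by norm_num)]

theorem coeff_E (a : Fin d →₀ ℕ) (p : Sy F d) : coeff a (E p) = (a.degree : F) * coeff a p := by
  have := lin_ext (f := (lcoeff F a).comp E) (g := (a.degree : F) • lcoeff F a) (F := F) (d := d)
    (fun b r => by
      simp only [LinearMap.comp_apply, LinearMap.smul_apply, E_monomial, lcoeff_apply, smul_eq_mul,
        coeff_monomial]
      by_cases h : b = a
      · subst h; simp
      · simp [h]) p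
  exact this

theorem eq_zero_of_E {p : Sy F d} (h : E p = 0) (h0 : coeff 0 p = 0) : p = 0 := by
  ext a
  rw [coeff_zero]
  by_cases ha : a = 0
  · rw [ha, h0]
  · have h1 := coeff_E a p
    rw [h, coeff_zero] at h1
    have h2 : (a.degree : F) ≠ 0 := by
      rw [Nat.cast_ne_zero]
      intro h3
      exact ha ((Finsupp.degree_eq_zero_iff a).1 h3)
    exact (mul_eq_zero.1 h1.symm).resolve_left h2

end

section
variable {F : Type} [Field F] [CharZero F] {d : ℕ} {A : Type} [AddCommGroup A] [Module F A]
  [Module (Sy F d) A] [IsScalarTower F (Sy F d) A] (ω : Fin d → Fin d → A)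

/-- the homotopy -/
noncomputable def hh : (Fin d → Sy F d) →ₗ[F] A where
  toFun s := ∑ i, ∑ k, (pderiv k (nu 1 (s i))) • ω i k
  map_add' s t := by
    simp only [Pi.add_apply, map_add, add_smul, Finset.sum_add_distrib]
  map_smul' c s := by
    simp only [Pi.smul_apply, map_smul, Derivation.map_smul, smul_assoc, Finset.smul_sum,
      RingHom.id_apply]

omit [CharZero F] [IsScalarTower F (Sy F d) A] in
theorem aux_single (i : Fin d) (p : Sy F d) :
    ∑ i', ∑ k, (pderiv k (nu 1 ((Pi.single i p : Fin d → Sy F d) i'))) • ω i' k =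
      ∑ k, (pderiv k (nu 1 p)) • ω i k := by
  rw [Finset.sum_eq_single i]
  · rw [Pi.single_eq_same]
  · intro b _ hb
    rw [Pi.single_eq_of_ne hb, map_zero]
    simp
  · intro h; exact absurd (Finset.mem_univ i) h

theorem hh_single (i : Fin d) (p : Sy F d) :
    hh ω (Pi.single i p) = ∑ k, (pderiv k (nu 1 p)) • ω i k := aux_single ω i p

theorem key (hω : ∀ i j, ω i j = - ω j i)
    (hc : ∀ i j k, (X k : Sy F d) • ω i j + (X i : Sy F d) • ω j k + (X j : Sy F d) • ω k i = 0)
    (i j : Fin d) (c : Sy F d) :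
    hh ω (Pi.single i (c * X j)) - hh ω (Pi.single j (c * X i)) = c • ω i j := by
  obtain ⟨c', hc'⟩ : ∃ c' : Sy F d, c' = nu 2 c := ⟨_, rfl⟩
  have h2 := E_nu (F := F) (c := 2) (by norm_num) c
  rw [← hc'] at h2
  have h1 : ∀ i j : Fin d, hh ω (Pi.single i (c * X j)) =
      ∑ k, (X j * pderiv k c') • ω i k + c' • ω i j := by
    intro i j
    rw [hh_single, mul_comm c, nu_X, ← hc']
    simp only [pd, add_smul, Finset.sum_add_distrib]
    congr 1
    rw [Finset.sum_eq_single j]
    · simp
    · intro k _ hk; rw [if_neg hk.symm, zero_smul]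
    · intro h; exact absurd (Finset.mem_univ j) h
  rw [h1 i j, h1 j i, hω j i]
  have h3 : ∑ k, (X j * pderiv k c') • ω i k - ∑ k, (X i * pderiv k c') • ω j k =
      (E c') • ω i j := by
    rw [← Finset.sum_sub_distrib, E_apply, Finset.sum_smul]
    refine Finset.sum_congr rfl fun k _ => ?_
    have h4 : (X k : Sy F d) • ω i j = (X j : Sy F d) • ω i k - (X i : Sy F d) • ω j k := by
      have := hc i j k
      rw [hω k i, smul_neg] at this
      rw [← sub_eq_zero, ← this]
      abel
    rw [mul_comm (X j), mul_comm (X i), mul_comm (X k), mul_smul, mul_smul, mul_smul, h4, smul_sub]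
  have h5 : c • ω i j = (E c') • ω i j + (c' • ω i j + c' • ω i j) := by
    conv_lhs => rw [← h2]
    rw [Nat.cast_ofNat, two_smul, add_smul, add_smul]
  rw [h5, ← h3, smul_neg]
  abel

/-- the relations -/
noncomputable def gen (x : Fin d × Fin d) : A × (Fin d → Sy F d) :=
  (- ω x.1 x.2, Pi.single x.1 (X x.2) - Pi.single x.2 (X x.1))

omit [CharZero F] [Module F A] [Module (Sy F d) A] [IsScalarTower F (Sy F d) A] in
theorem gen_fst (x : Fin d × Fin d) : (gen (F := F) ω x).1 = - ω x.1 x.2 := rfl

omit [CharZero F] [Module F A] [Module (Sy F d) A] [IsScalarTower F (Sy F d) A] in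
theorem gen_snd (x : Fin d × Fin d) :
    (gen (F := F) ω x).2 = Pi.single x.1 (X x.2) - Pi.single x.2 (X x.1) := rfl

omit [CharZero F] [Module F A] [Module (Sy F d) A] [IsScalarTower F (Sy F d) A] in
theorem gen_snd_apply (x : Fin d × Fin d) (l : Fin d) :
    (gen (F := F) ω x).2 l = (Pi.single x.1 (X x.2) : Fin d → Sy F d) l -
      (Pi.single x.2 (X x.1) : Fin d → Sy F d) l := rfl

/-- the submodule of the relations -/
noncomputable def Re : Submodule (Sy F d) (A × (Fin d → Sy F d)) :=
  Submodule.span (Sy F d) (Set.range (gen ω))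

/-- the retraction -/
noncomputable def ret : A × (Fin d → Sy F d) →ₗ[F] A :=
  LinearMap.fst F A (Fin d → Sy F d) + (hh ω).comp (LinearMap.snd F A (Fin d → Sy F d))

theorem ret_Re (hω : ∀ i j, ω i j = - ω j i)
    (hc : ∀ i j k, (X k : Sy F d) • ω i j + (X i : Sy F d) • ω j k + (X j : Sy F d) • ω k i = 0)
    {x : A × (Fin d → Sy F d)} (hx : x ∈ Re ω) : ret ω x = 0 := by
  obtain ⟨c, rfl⟩ := (Submodule.mem_span_range_iff_exists_fun (Sy F d)).1 hx
  rw [map_sum]
  refine Finset.sum_eq_zero fun y _ => ?_
  have h1 := key ω hω hc y.1 y.2 (c y)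
  change (c y • gen (F := F) ω y).1 + hh ω (c y • gen (F := F) ω y).2 = 0
  have h2 : (c y • gen (F := F) ω y).2 = Pi.single y.1 (c y * X y.2) - Pi.single y.2 (c y * X y.1) := by
    rw [Prod.smul_snd, gen_snd, smul_sub, ← Pi.single_smul, ← Pi.single_smul, smul_eq_mul,
      smul_eq_mul]
  have h3 : (c y • gen (F := F) ω y).1 = - (c y • ω y.1 y.2) := by
    rw [Prod.smul_fst, gen_fst, smul_neg]
  rw [h2, h3, map_sub, h1, neg_add_cancel]

/-- exactness -/
theorem exact_aux (s : Fin d → Sy F d) (hs : ∑ i, s i * X i = 0) :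
    ((- hh ω s, s) : A × (Fin d → Sy F d)) ∈ Re ω := by
  obtain ⟨t, ht⟩ : ∃ t : Fin d → Sy F d, t = fun i => nu 1 (s i) := ⟨_, rfl⟩
  have hE : ∀ i, E (t i) + t i = s i := by
    intro i
    have := E_nu (F := F) (c := 1) (by norm_num) (s i)
    rw [Nat.cast_one, one_smul] at this
    rw [ht]; exact this
  -- `∑ X_i t_i = 0`
  have h1 : ∑ i, X i * t i = 0 := by
    apply eq_zero_of_E
    · rw [map_sum]
      have : ∀ i ∈ Finset.univ, E (X i * t i) = s i * X i := by
        intro i _
        rw [E_X, hE, mul_comm]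
      rw [Finset.sum_congr rfl this, hs]
    · rw [coeff_sum]
      refine Finset.sum_eq_zero fun i _ => ?_
      rw [← constantCoeff_eq, map_mul, constantCoeff_X, zero_mul]
  -- differentiate
  have h2 : ∀ k, ∑ i, X i * pderiv k (t i) + t k = 0 := by
    intro k
    have h3 := congrArg (pderiv k) h1
    rw [map_sum, map_zero] at h3
    simp only [pd, Finset.sum_add_distrib] at h3
    rw [Finset.sum_eq_single (f := fun x => if x = k then t x else 0) k] at h3
    · simpa using h3
    · intro b _ hb; rw [if_neg hb]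
    · intro h; exact absurd (Finset.mem_univ k) h
  have h4 : ((- hh ω s, s) : A × (Fin d → Sy F d)) =
      ∑ x : Fin d × Fin d, (pderiv x.2 (t x.1)) • gen ω x := by
    apply Prod.ext
    · rw [Prod.fst_sum]
      change - (∑ i, ∑ k, (pderiv k (nu 1 (s i))) • ω i k) =
        ∑ x : Fin d × Fin d, (pderiv x.2 (t x.1)) • (- ω x.1 x.2)
      rw [Fintype.sum_prod_type]
      simp only [smul_neg, Finset.sum_neg_distrib, ht]
    · rw [Prod.snd_sum]
      change s = ∑ x : Fin d × Fin d,
        (pderiv x.2 (t x.1)) • (Pi.single x.1 (X x.2) - Pi.single x.2 (X x.1))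
      funext l
      rw [Finset.sum_apply, Fintype.sum_prod_type]
      simp only [Pi.smul_apply, Pi.sub_apply, smul_eq_mul, mul_sub, Finset.sum_sub_distrib]
      have e1 : ∑ i, ∑ k, pderiv k (t i) * (Pi.single i (X k) : Fin d → Sy F d) l = E (t l) := by
        rw [Finset.sum_eq_single l]
        · rw [E_apply]
          refine Finset.sum_congr rfl fun k _ => ?_
          rw [Pi.single_eq_same, mul_comm]
        · intro b _ hb
          refine Finset.sum_eq_zero fun k _ => ?_
          rw [Pi.single_eq_of_ne hb.symm, mul_zero]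
        · intro h; exact absurd (Finset.mem_univ l) h
      have e2 : ∑ i, ∑ k, pderiv k (t i) * (Pi.single k (X i) : Fin d → Sy F d) l =
          ∑ i, X i * pderiv l (t i) := by
        refine Finset.sum_congr rfl fun i _ => ?_
        rw [Finset.sum_eq_single l]
        · rw [Pi.single_eq_same, mul_comm]
        · intro b _ hb
          rw [Pi.single_eq_of_ne hb.symm, mul_zero]
        · intro h; exact absurd (Finset.mem_univ l) h
      rw [e1, e2, ← hE l]
      linear_combination h2 l
  rw [h4]
  exact Submodule.sum_mem _ fun x _ => Submodule.smul_mem _ _ (Submodule.subset_span ⟨x, rfl⟩)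

end

/-- **X** -/
theorem t_X : S_X := by
  intro F _ _ d A _ _ _ _ ω hω hc
  let M := (A × (Fin d → Sy F d)) ⧸ Re ω
  let mk : A × (Fin d → Sy F d) →ₗ[Sy F d] M := (Re ω).mkQ
  let pr0 : A × (Fin d → Sy F d) →ₗ[Sy F d] Sy F d :=
    { toFun := fun x => ∑ i, x.2 i * X i
      map_add' := fun x y => by simp [add_mul, Finset.sum_add_distrib]
      map_smul' := fun c x => by simp [Finset.mul_sum, mul_assoc] }
  have hpr0 : Re ω ≤ LinearMap.ker pr0 := by
    refine Submodule.span_le.2 ?_
    rintro _ ⟨x, rfl⟩
    change ∑ i, ((Pi.single x.1 (X x.2) - Pi.single x.2 (X x.1) : Fin d → Sy F d) i) * X i = 0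
    simp only [Pi.sub_apply, sub_mul, Finset.sum_sub_distrib]
    have e : ∀ (a b : Fin d), ∑ i, (Pi.single a (X b) : Fin d → Sy F d) i * X i = X b * X a := by
      intro a b
      rw [Finset.sum_eq_single a]
      · rw [Pi.single_eq_same]
      · intro c _ hc
        rw [Pi.single_eq_of_ne hc, zero_mul]
      · intro h; exact absurd (Finset.mem_univ a) h
    rw [e, e]
    ring
  let pr : M →ₗ[Sy F d] Sy F d := (Re ω).liftQ pr0 hpr0
  have hpr : ∀ x, pr (mk x) = ∑ i, x.2 i * X i := fun x => rfl
  let inc : A →ₗ[Sy F d] M := mk.comp (LinearMap.inl (Sy F d) A (Fin d → Sy F d))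
  have hinc : ∀ a, inc a = mk (a, 0) := fun a => rfl
  let e : Fin d → M := fun i => mk (0, Pi.single i 1)
  have hmk0 : ∀ x, mk x = 0 ↔ x ∈ Re ω := fun x => Submodule.Quotient.mk_eq_zero _
  refine ⟨M, inferInstance, inferInstance, inferInstance, inferInstance, pr, inc, e, ?_, ?_, ?_, ?_,
    ?_, ?_, ?_⟩
  · intro i
    change ∑ j, (Pi.single i (1 : Sy F d) : Fin d → Sy F d) j * X j = X i
    rw [Finset.sum_eq_single i]
    · rw [Pi.single_eq_same, one_mul]
    · intro c _ hc
      rw [Pi.single_eq_of_ne hc, zero_mul]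
    · intro h; exact absurd (Finset.mem_univ i) h
  · intro a
    change ∑ j, (0 : Fin d → Sy F d) j * X j = 0
    simp
  · rw [injective_iff_map_eq_zero]
    intro a ha
    rw [hinc, hmk0] at ha
    have h1 := ret_Re ω hω hc ha
    change a + hh ω 0 = 0 at h1
    rwa [map_zero, add_zero] at h1
  · intro m hm
    obtain ⟨⟨a, s⟩, rfl⟩ := Submodule.mkQ_surjective (Re ω) m
    have h1 : ∑ i, s i * X i = 0 := hm
    refine ⟨a + hh ω s, ?_⟩
    have h2 := exact_aux ω s h1
    change mk (a + hh ω s, 0) = mk (a, s)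
    rw [← sub_eq_zero, ← map_sub, hmk0]
    have h3 : ((a + hh ω s, 0) - (a, s) : A × (Fin d → Sy F d)) = - (- hh ω s, s) := by
      apply Prod.ext
      · simp
      · simp
    rw [h3]
    exact Submodule.neg_mem _ h2
  · intro i j
    rw [← sub_eq_zero]
    change (X j : Sy F d) • mk (0, Pi.single i 1) - (X i : Sy F d) • mk (0, Pi.single j 1) -
      mk (ω i j, 0) = 0
    rw [← map_smul, ← map_smul, ← map_sub, ← map_sub, hmk0]
    have h1 : ((X j : Sy F d) • ((0 : A), (Pi.single i 1 : Fin d → Sy F d)) -
        (X i : Sy F d) • ((0 : A), (Pi.single j 1 : Fin d → Sy F d)) - (ω i j, 0)) =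
        gen ω (i, j) := by
      apply Prod.ext
      · simp [gen]
      · change (X j : Sy F d) • (Pi.single i 1 : Fin d → Sy F d) -
          (X i : Sy F d) • (Pi.single j 1 : Fin d → Sy F d) - 0 = Pi.single i (X j) - Pi.single j (X i)
        rw [sub_zero, ← Pi.single_smul, ← Pi.single_smul, smul_eq_mul, smul_eq_mul, mul_one, mul_one]
    rw [h1]
    exact Submodule.subset_span ⟨(i, j), rfl⟩
  · intro m
    obtain ⟨⟨a, s⟩, rfl⟩ := Submodule.mkQ_surjective (Re ω) m
    refine ⟨a, s, ?_⟩
    change mk (a, s) = mk (a, 0) + ∑ i, s i • mk (0, Pi.single i 1)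
    simp only [← map_smul]
    rw [← map_sum, ← map_add]
    congr 1
    apply Prod.ext
    · simp [Prod.fst_sum]
    · rw [Prod.snd_add, Prod.snd_sum]
      simp only [Prod.smul_snd, zero_add]
      funext l
      rw [Finset.sum_apply, Finset.sum_eq_single l]
      · simp
      · intro c _ hc
        simp [Pi.single_eq_of_ne hc.symm]
      · intro h; exact absurd (Finset.mem_univ l) h
  · intro B N _ _ _ _ _ _ κ α v hα hv
    let β0 : A × (Fin d → Sy F d) →ₗ[F] N :=
      { toFun := fun x => α x.1 + ∑ i, aeval κ (x.2 i) • v i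
        map_add' := fun x y => by
          simp only [Prod.fst_add, Prod.snd_add, Pi.add_apply, map_add, add_smul,
            Finset.sum_add_distrib]
          abel
        map_smul' := fun c x => by
          simp only [Prod.smul_fst, Prod.smul_snd, Pi.smul_apply, map_smul, smul_assoc,
            RingHom.id_apply, smul_add, Finset.smul_sum] }
    have hβ0 : ∀ x, β0 x = α x.1 + ∑ i, aeval κ (x.2 i) • v i := fun x => rfl
    have hsl : ∀ (s : Sy F d) x, β0 (s • x) = aeval κ s • β0 x := by
      intro s x
      rw [hβ0, hβ0, smul_add, Finset.smul_sum, Prod.smul_fst, hα]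
      congr 1
      refine Finset.sum_congr rfl fun i _ => ?_
      rw [Prod.smul_snd, Pi.smul_apply, smul_eq_mul, map_mul, mul_smul]
    have hker : ∀ x ∈ Re ω, β0 x = 0 := by
      intro x hx
      refine Submodule.span_induction ?_ ?_ ?_ ?_ hx
      · rintro _ ⟨⟨i, j⟩, rfl⟩
        rw [hβ0, gen_fst]
        simp only [gen_snd_apply, map_sub, sub_smul, Finset.sum_sub_distrib]
        have e : ∀ (a b : Fin d), ∑ l, aeval κ ((Pi.single a (X b) : Fin d → Sy F d) l) • v l =
            κ b • v a := by
          intro a b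
          rw [Finset.sum_eq_single a]
          · rw [Pi.single_eq_same, aeval_X]
          · intro c _ hc
            rw [Pi.single_eq_of_ne hc, map_zero, zero_smul]
          · intro h; exact absurd (Finset.mem_univ a) h
        rw [e, e, hv, map_neg, neg_add_cancel]
      · exact map_zero β0
      · intro x y _ _ hx hy
        rw [map_add, hx, hy, add_zero]
      · intro s x _ hx
        rw [hsl, hx, smul_zero]
    have hsurj : ∀ m : M, ∃ x, mk x = m := Submodule.mkQ_surjective (Re ω)
    choose rep hrep using hsurj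
    have hβ : ∀ x, β0 (rep (mk x)) = β0 x := by
      intro x
      have h1 : mk (rep (mk x) - x) = 0 := by rw [map_sub, hrep, sub_self]
      have h2 := hker _ ((hmk0 _).1 h1)
      rwa [map_sub, sub_eq_zero] at h2
    have hadd : ∀ m m' : M, β0 (rep (m + m')) = β0 (rep m) + β0 (rep m') := by
      intro m m'
      have h1 : m + m' = mk (rep m + rep m') := by rw [map_add, hrep, hrep]
      rw [h1, hβ, map_add]
    have hsmul : ∀ (c : F) (m : M), β0 (rep (c • m)) = c • β0 (rep m) := by
      intro c m
      have h1 : c • m = mk (c • rep m) := by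
        conv_lhs => rw [← hrep m]
        rfl
      rw [h1, hβ, map_smul]
    let β : M →ₗ[F] N := { toFun := fun m => β0 (rep m), map_add' := hadd, map_smul' := hsmul }
    have hβ' : ∀ x, β (mk x) = β0 x := hβ
    refine ⟨β, ?_, ?_, ?_⟩
    · intro s m
      obtain ⟨x, rfl⟩ := Submodule.mkQ_surjective (Re ω) m
      change β (s • mk x) = aeval κ s • β (mk x)
      rw [← map_smul, hβ', hβ', hsl]
    · intro a
      rw [hinc, hβ', hβ0]
      simp
    · intro i
      change β (mk (0, Pi.single i 1)) = v i
      rw [hβ', hβ0, map_zero, zero_add]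
      dsimp only
      rw [Finset.sum_eq_single i]
      · rw [Pi.single_eq_same, map_one, one_smul]
      · intro c _ hc
        rw [Pi.single_eq_of_ne hc, map_zero, zero_smul]
      · intro h; exact absurd (Finset.mem_univ i) h

end Pool.Agent.U7.EM.X

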